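import Mathlib

/-!
# The Cremona images of the class of a line
-/

namespace Pool.Agent.H18.Nef

/-- The Cremona images `F = e H - ∑ k_i E_i` of the class `H` of a line: `H` itself, and with `F` its
image under the quadratic transformation based at three points `a, b, c`, which replaces `e` by
`s = 2 e - k_a - k_b - k_c` and `k_i` by `s + k_i - e` for `i = a, b, c`. -/
inductive LineImage {n : ℕ} : ℕ → (Fin n → ℕ) → Prop
  | line : LineImage 1 fun _ => 0
  | step {e s : ℕ} {k : Fin n → ℕ} {a b c : Fin n} (h : LineImage e k) (hab : a ≠ b) (hac : a ≠ c)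
      (hbc : b ≠ c) (hka : k b + k c ≤ e) (hkb : k a + k c ≤ e) (hkc : k a + k b ≤ e)
      (hs : k a + k b + k c + s = 2 * e) :
      LineImage s fun i => if i = a ∨ i = b ∨ i = c then s + k i - e else k i

end Pool.Agent.H18.Nef
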