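import Pool.Agent.H18.Ub.VDim
import Pool.Agent.H18.Pr.FinalR

/-!
# Effective classes and Cremona transformations
-/

namespace Pool.Agent.H18.Nef

open Finset Pool.Agent.H18.Ex Pool.Agent.H18.Cub Pool.Agent.H18.Pr Pool.Agent.H18.Fat
  Pool.Agent.H18.Ub

theorem generalDim_le {r d k : ℕ} (m : Fin k → ℕ) (x : ℕ)
    (h : ∃ p : Fin k → Fin (r + 1) → ℂ, Module.finrank ℂ (fatForms r d p m) ≤ x) :
    generalDim r d m ≤ x := by
  obtain ⟨p, hp⟩ := h
  exact le_trans (Nat.sInf_le ⟨p, rfl⟩) hp

theorem generalDim_ge {r : ℕ} (hr : 1 ≤ r) (d : ℕ) {k : ℕ} (m : Fin k → ℕ) :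
    ((d + r).choose r : ℤ) - ∑ i, ((m i + r - 1).choose r : ℤ) ≤ generalDim r d m := by
  obtain ⟨p, hp1, hp2⟩ := exists_of_general ((generalDim_spec r d m).and (general_ne_zero r k))
  have := finrank_fatForms_ge (d := d) hr hp2 m
  rw [hp1] at this
  exact this

/-- A form of degree `e` vanishing to order more than `e` at a point is zero. -/
theorem eq_zero_of_vanishes {n e m : ℕ} (F : MvPolynomial (Fin n) ℂ) (hF : F.IsHomogeneous e)
    (q : Fin n → ℂ) (hm : e < m) (h : VanishesToOrder F q m) : F = 0 := by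
  have h1 : shift q F = 0 := by
    ext β
    rw [MvPolynomial.coeff_zero]
    by_cases hβ : β.degree < m
    · exact h β hβ
    · by_contra hc
      have h2 := MvPolynomial.le_totalDegree (MvPolynomial.mem_support_iff.2 hc)
      have h3 : (shift q F).totalDegree ≤ F.totalDegree := by
        unfold shift
        rw [MvPolynomial.aeval_def, MvPolynomial.eval₂_eq']
        refine (MvPolynomial.totalDegree_finsetSum _ _).trans (Finset.sup_le fun a ha => ?_)
        refine (MvPolynomial.totalDegree_mul _ _).trans ?_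
        rw [MvPolynomial.algebraMap_eq, MvPolynomial.totalDegree_C, zero_add]
        refine (MvPolynomial.totalDegree_finsetProd _ _).trans ?_
        refine le_trans ?_ (MvPolynomial.le_totalDegree ha)
        rw [Finsupp.sum_fintype _ _ (fun _ => rfl)]
        refine sum_le_sum fun i _ => ?_
        refine (MvPolynomial.totalDegree_pow _ _).trans ?_
        have h4 : (MvPolynomial.X i + MvPolynomial.C (q i) :
            MvPolynomial (Fin n) ℂ).totalDegree ≤ 1 := by
          refine (MvPolynomial.totalDegree_add _ _).trans (max_le ?_ ?_)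
          · rw [MvPolynomial.totalDegree_X]
          · rw [MvPolynomial.totalDegree_C]
            omega
        calc a i * _ ≤ a i * 1 := Nat.mul_le_mul_left _ h4
          _ = a i := mul_one _
      have h5 : F.totalDegree ≤ e := hF.totalDegree_le
      have h6 : (β.sum fun _ e => e) = β.degree := rfl
      omega
  have h2 : (MvPolynomial.aeval (fun j => MvPolynomial.X j - MvPolynomial.C (q j)))
      (shift q F) = F := by
    unfold shift
    rw [← AlgHom.comp_apply]
    have h3 : (MvPolynomial.aeval (fun j => (MvPolynomial.X j - MvPolynomial.C (q j) :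
        MvPolynomial (Fin n) ℂ))).comp (MvPolynomial.aeval
          (fun j => (MvPolynomial.X j + MvPolynomial.C (q j) : MvPolynomial (Fin n) ℂ))) =
        AlgHom.id ℂ _ := by
      apply MvPolynomial.algHom_ext
      intro j
      simp [MvPolynomial.algebraMap_eq]
    rw [h3]
    rfl
  rw [← h2, h1, map_zero]

theorem le_of_effective {r e k : ℕ} (m : Fin k → ℕ) (h : 1 ≤ generalDim r e m) (i : Fin k) :
    m i ≤ e := by
  by_contra hcon
  push Not at hcon
  have h1 : generalDim r e m ≤ 0 := by
    apply generalDim_le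
    refine ⟨fun _ _ => 0, ?_⟩
    have h2 : fatForms r e (fun (_ : Fin k) (_ : Fin (r + 1)) => (0 : ℂ)) m = ⊥ := by
      rw [eq_bot_iff]
      intro F hF
      rw [Submodule.mem_bot]
      exact eq_zero_of_vanishes F hF.1 _ hcon (hF.2 i)
    rw [h2, finrank_bot]
  omega

theorem sum_le_of_effective {r e k : ℕ} (m : Fin k → ℕ) (h : 1 ≤ generalDim r e m)
    (J : Fin (r + 1) ↪ Fin k) : ∑ l, m (J l) ≤ r * e := by
  by_contra hcon
  push Not at hcon
  have hJ : ∀ l, m (J l) ≤ e := fun l => le_of_effective m h (J l)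
  have h1 : generalDim r e m ≤ 0 := by
    apply generalDim_le
    apply special_of_GI m J hJ 0
    have hempty : Ex.Rg e (fun l : Fin (r + 1) => e - m (J l)) = ∅ := by
      rw [Finset.eq_empty_iff_forall_notMem]
      intro a ha
      rw [Ex.mem_Rg] at ha
      have h2 : ∑ l, a l ≤ ∑ l, (e - m (J l)) := sum_le_sum fun l _ => ha.1 l
      have h3 : ∑ l : Fin (r + 1), (e - m (J l)) + ∑ l : Fin (r + 1), m (J l) = (r + 1) * e := by
        rw [← Finset.sum_add_distrib]
        rw [Finset.sum_congr rfl fun l _ => Nat.sub_add_cancel (hJ l)]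
        simp
      have h4 : (r + 1) * e = r * e + e := by ring
      omega
    rw [hempty]
    refine ⟨fun _ _ => 0, ?_⟩
    intro f _ a ha
    exact absurd ha (notMem_empty a)
  omega

/-- Cremona transformations of effective classes. -/
theorem generalDim_cremona {r k d d' : ℕ} (m m' : Fin k → ℕ) (J : Fin (r + 1) ↪ Fin k)
    (hJ : ∀ l, m (J l) ≤ d) (hd' : ∑ l, m (J l) + d' = r * d)
    (hm'J : ∀ l, m' (J l) = d' + m (J l) - d) (hm' : ∀ i, (∀ l, J l ≠ i) → m' i = m i) :
    generalDim r d' m' = generalDim r d m := by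
  have h1 := (cremona_general m m' J hJ hd' hm'J hm' _).1 (generalDim_spec r d m)
  obtain ⟨p, hp1, hp2⟩ := exists_of_general (h1.and (generalDim_spec r d' m'))
  rw [← hp2, hp1]

end Pool.Agent.H18.Nef
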