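import Pool.Agent.H18.Nef.NefA

/-!
# Nef classes with at most nine large multiplicities
-/

namespace Pool.Agent.H18.Nef

open Finset Pool.Agent.H18.Cub Pool.Agent.H18.Pr Pool.Agent.H18.Fat Pool.Agent.H18.Ub

variable {n : ℕ}

/-- Positivity on the classes supported on `J`. -/
structure Pos (D : ℕ) (J : Finset (Fin n)) (d : ℕ) (m : Fin n → ℕ) : Prop where
  nef : ∀ (e : ℕ) (k : Fin n → ℕ), (∀ i, i ∉ J → k i = 0) → 1 ≤ generalDim 2 e k →
    ∑ i, m i * k i ≤ d * e
  big : ∀ (e : ℕ) (k : Fin n → ℕ), (∀ i, i ∉ J → k i = 0) → 2 ≤ generalDim 2 e k →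
    ∑ i, m i * k i + D ≤ d * e
  can : ∑ i ∈ J, m i + D ≤ 3 * d

theorem Pos.deg {D : ℕ} {J : Finset (Fin n)} {d : ℕ} {m : Fin n → ℕ} (h : Pos D J d m) :
    D ≤ d := by
  have h1 := h.big 1 (fun _ => 0) (fun _ _ => rfl) (by
    have h2 := generalDim_ge (r := 2) (by norm_num) 1 (fun _ : Fin n => 0)
    have h3 : ∑ i : Fin n, (((fun _ : Fin n => 0) i + 2 - 1 : ℕ).choose 2 : ℤ) = 0 := by
      simp
    rw [h3] at h2
    norm_num at h2
    omega)
  simpa using h1

theorem Pos.one {D : ℕ} {J : Finset (Fin n)} {d : ℕ} {m : Fin n → ℕ} (h : Pos D J d m)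
    {i : Fin n} (hi : i ∈ J) : m i + D ≤ d := by
  have h1 := h.big 1 (fun x => if x = i then 1 else 0) (fun x hx => by
      rw [if_neg]
      rintro rfl
      exact hx hi) (by
    have h2 := generalDim_ge (r := 2) (by norm_num) 1 (fun x : Fin n => if x = i then 1 else 0)
    have h3 : ∑ x : Fin n, (((if x = i then 1 else 0) + 2 - 1 : ℕ).choose 2 : ℤ) = 1 := by
      have h4 : ∀ x : Fin n, (((if x = i then 1 else 0) + 2 - 1 : ℕ).choose 2 : ℤ) =
          if x = i then 1 else 0 := by
        intro x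
        by_cases hx : x = i
        · rw [if_pos hx, if_pos hx]
          norm_num
        · rw [if_neg hx, if_neg hx]
          norm_num
      rw [sum_congr rfl fun x _ => h4 x]
      simp
    rw [h3] at h2
    norm_num at h2
    omega)
  simpa using h1

theorem Pos.two {D : ℕ} {J : Finset (Fin n)} {d : ℕ} {m : Fin n → ℕ} (h : Pos D J d m)
    {i j : Fin n} (hij : i ≠ j) (hi : i ∈ J) (hj : j ∈ J) : m i + m j ≤ d := by
  have h1 := h.nef 1 (fun x => (if x = i then 1 else 0) + if x = j then 1 else 0)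
    (fun x hx => by
      rw [if_neg, if_neg]
      · rintro rfl
        exact hx hj
      · rintro rfl
        exact hx hi) (by
    have h2 := generalDim_ge (r := 2) (by norm_num) 1
      (fun x : Fin n => (if x = i then 1 else 0) + if x = j then 1 else 0)
    have h3 : ∑ x : Fin n, (((if x = i then 1 else 0) + (if x = j then 1 else 0) + 2 - 1 :
        ℕ).choose 2 : ℤ) = 2 := by
      have h4 : ∀ x : Fin n, (((if x = i then 1 else 0) + (if x = j then 1 else 0) + 2 - 1 :
          ℕ).choose 2 : ℤ) = (if x = i then 1 else 0) + if x = j then 1 else 0 := by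
        intro x
        by_cases hi : x = i
        · subst hi
          rw [if_pos rfl, if_neg hij, if_pos rfl, if_neg hij]
          norm_num
        · by_cases hj : x = j
          · subst hj
            rw [if_neg hi, if_pos rfl, if_neg hi, if_pos rfl]
            norm_num
          · rw [if_neg hi, if_neg hj, if_neg hi, if_neg hj]
            norm_num
      rw [sum_congr rfl fun x _ => h4 x, sum_add_distrib]
      simp
    rw [h3] at h2
    norm_num at h2
    omega)
  have h5 : ∑ x, m x * ((if x = i then 1 else 0) + if x = j then 1 else 0) = m i + m j := by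
    have h6 : ∀ x, m x * ((if x = i then 1 else 0) + if x = j then 1 else 0) =
        (if x = i then m x else 0) + (if x = j then m x else 0) := by
      intro x
      split_ifs <;> ring
    rw [sum_congr rfl fun x _ => h6 x, sum_add_distrib]
    simp
  rw [h5] at h1
  omega

/-- The virtual dimension (of the space of forms). -/
def virt (d : ℕ) (m : Fin n → ℕ) : ℤ :=
  ((d + 2).choose 2 : ℤ) - ∑ i, ((m i + 2 - 1).choose 2 : ℤ)

theorem sum_three {α : Type*} [AddCommMonoid α] (f : Fin n → α) {a b c : Fin n} (hab : a ≠ b)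
    (hac : a ≠ c) (hbc : b ≠ c) :
    ∑ i, f i = f a + f b + f c + ∑ i ∈ univ \ {a, b, c}, f i := by
  rw [← sum_sdiff (subset_univ {a, b, c}), add_comm]
  congr 1
  rw [sum_insert (by simp [hab, hac]), sum_insert (by simp [hbc]), sum_singleton, add_assoc]

theorem choose_two_cast (x : ℕ) : 2 * ((x + 1).choose 2 : ℤ) = (x : ℤ) * (x + 1) := by
  induction x with
  | zero => simp
  | succ x ih =>
    rw [Nat.choose_succ_succ, Nat.choose_one_right]
    push_cast
    push_cast at ih
    linarith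

/-- The new multiplicities. -/
def crm (d : ℕ) (m : Fin n → ℕ) (a b c : Fin n) (s : ℕ) : Fin n → ℕ := fun i =>
  if i = a ∨ i = b ∨ i = c then s + m i - d else m i

theorem crm_out {d : ℕ} {m : Fin n → ℕ} {a b c : Fin n} {s : ℕ} {i : Fin n}
    (hi : i ∈ univ \ ({a, b, c} : Finset (Fin n))) : crm d m a b c s i = m i := by
  rw [mem_sdiff, mem_insert, mem_insert, mem_singleton] at hi
  exact if_neg hi.2

theorem emb3 {a b c : Fin n} (hab : a ≠ b) (hac : a ≠ c) (hbc : b ≠ c) :
    ∃ J : Fin (2 + 1) ↪ Fin n, J 0 = a ∧ J 1 = b ∧ J 2 = c ∧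
      ∀ i, (∀ l, J l ≠ i) ↔ ¬ (i = a ∨ i = b ∨ i = c) := by
  refine ⟨⟨![a, b, c], ?_⟩, rfl, rfl, rfl, ?_⟩
  · intro x y hxy
    fin_cases x <;> fin_cases y <;> simp_all
  · intro i
    constructor
    · intro h h'
      rcases h' with h' | h' | h'
      · exact h 0 h'.symm
      · exact h 1 h'.symm
      · exact h 2 h'.symm
    · intro h l hl
      apply h
      fin_cases l
      · exact Or.inl hl.symm
      · exact Or.inr (Or.inl hl.symm)
      · exact Or.inr (Or.inr hl.symm)

/-- The intersection numbers. -/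
theorem pairing {d e s s' : ℕ} {m k : Fin n → ℕ} {a b c : Fin n} (hab : a ≠ b) (hac : a ≠ c)
    (hbc : b ≠ c) (hμ : m a + m b + m c + s = 2 * d) (hK : k a + k b + k c + s' = 2 * e)
    (hma : m b + m c ≤ d) (hmb : m a + m c ≤ d) (hmc : m a + m b ≤ d) :
    (d : ℤ) * s' - ∑ i, (m i : ℤ) * (crm e k a b c s' i : ℤ) ≤
      (s : ℤ) * e - ∑ i, (crm d m a b c s i : ℤ) * (k i : ℤ) := by
  have h1 : ∀ x, (x = a ∨ x = b ∨ x = c) → ((s' : ℤ) + k x - e) ≤ (crm e k a b c s' x : ℤ) := by
    intro x hx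
    have : crm e k a b c s' x = s' + k x - e := if_pos hx
    rw [this]
    omega
  have h2 : ∀ x, (x = a ∨ x = b ∨ x = c) → (crm d m a b c s x : ℤ) = (s : ℤ) + m x - d := by
    intro x hx
    have : crm d m a b c s x = s + m x - d := if_pos hx
    rw [this]
    rcases hx with rfl | rfl | rfl <;> omega
  rw [sum_three (fun i => (m i : ℤ) * (crm e k a b c s' i : ℤ)) hab hac hbc,
    sum_three (fun i => (crm d m a b c s i : ℤ) * (k i : ℤ)) hab hac hbc]
  have h3 : ∑ i ∈ univ \ {a, b, c}, (m i : ℤ) * (crm e k a b c s' i : ℤ) =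
      ∑ i ∈ univ \ {a, b, c}, (crm d m a b c s i : ℤ) * (k i : ℤ) :=
    sum_congr rfl fun i hi => by rw [crm_out hi, crm_out hi]
  rw [h3, h2 a (Or.inl rfl), h2 b (Or.inr (Or.inl rfl)), h2 c (Or.inr (Or.inr rfl))]
  have ha := mul_le_mul_of_nonneg_left (h1 a (Or.inl rfl)) (Int.natCast_nonneg (m a))
  have hb := mul_le_mul_of_nonneg_left (h1 b (Or.inr (Or.inl rfl))) (Int.natCast_nonneg (m b))
  have hc := mul_le_mul_of_nonneg_left (h1 c (Or.inr (Or.inr rfl))) (Int.natCast_nonneg (m c))
  have hs : (s : ℤ) = 2 * d - m a - m b - m c := by omega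
  have hs' : (s' : ℤ) = 2 * e - k a - k b - k c := by omega
  rw [hs'] at ha hb hc
  rw [hs, hs']
  rw [hs'] at *
  nlinarith only [ha, hb, hc]

/-- Cremona transformations preserve the virtual dimension. -/
theorem virt_crm {d s : ℕ} {m : Fin n → ℕ} {a b c : Fin n} (hab : a ≠ b) (hac : a ≠ c)
    (hbc : b ≠ c) (hμ : m a + m b + m c + s = 2 * d)
    (hma : m b + m c ≤ d) (hmb : m a + m c ≤ d) (hmc : m a + m b ≤ d) :
    virt s (crm d m a b c s) = virt d m := by
  have h2 : ∀ x, (x = a ∨ x = b ∨ x = c) → (crm d m a b c s x : ℤ) = (s : ℤ) + m x - d := by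
    intro x hx
    have : crm d m a b c s x = s + m x - d := if_pos hx
    rw [this]
    rcases hx with rfl | rfl | rfl <;> omega
  unfold virt
  rw [sum_three (fun i => ((crm d m a b c s i + 2 - 1).choose 2 : ℤ)) hab hac hbc,
    sum_three (fun i => ((m i + 2 - 1).choose 2 : ℤ)) hab hac hbc]
  have h3 : ∑ i ∈ univ \ {a, b, c}, ((crm d m a b c s i + 2 - 1).choose 2 : ℤ) =
      ∑ i ∈ univ \ {a, b, c}, ((m i + 2 - 1).choose 2 : ℤ) :=
    sum_congr rfl fun i hi => by rw [crm_out hi]
  rw [h3]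
  have e1 : ∀ x : ℕ, 2 * ((x + 2 - 1).choose 2 : ℤ) = (x : ℤ) * (x + 1) := fun x =>
    choose_two_cast x
  have e2 : ∀ x : ℕ, 2 * ((x + 2).choose 2 : ℤ) = ((x : ℤ) + 1) * (x + 2) := fun x => by
    have := choose_two_cast (x + 1)
    push_cast at this
    push_cast
    linarith only [this]
  have hs : (s : ℤ) = 2 * d - m a - m b - m c := by omega
  have ea := e1 (crm d m a b c s a)
  have eb := e1 (crm d m a b c s b)
  have ec := e1 (crm d m a b c s c)
  rw [h2 a (Or.inl rfl)] at ea
  rw [h2 b (Or.inr (Or.inl rfl))] at eb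
  rw [h2 c (Or.inr (Or.inr rfl))] at ec
  have fa := e1 (m a)
  have fb := e1 (m b)
  have fc := e1 (m c)
  have gd := e2 d
  have gs := e2 s
  rw [hs] at ea eb ec gs
  nlinarith only [ea, eb, ec, fa, fb, fc, gd, gs]

theorem sum_J_crm {d s : ℕ} {m : Fin n → ℕ} {a b c : Fin n} (hab : a ≠ b) (hac : a ≠ c)
    (hbc : b ≠ c) (hμ : m a + m b + m c + s = 2 * d)
    (hma : m b + m c ≤ d) (hmb : m a + m c ≤ d) (hmc : m a + m b ≤ d) (J : Finset (Fin n))
    (ha : a ∈ J) (hb : b ∈ J) (hc : c ∈ J) :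
    ∑ i ∈ J, crm d m a b c s i + 3 * d = ∑ i ∈ J, m i + 3 * s := by
  have h2 : ∀ x, (x = a ∨ x = b ∨ x = c) → crm d m a b c s x + d = s + m x := by
    intro x hx
    have : crm d m a b c s x = s + m x - d := if_pos hx
    rw [this]
    rcases hx with rfl | rfl | rfl <;> omega
  have hsub : ({a, b, c} : Finset (Fin n)) ⊆ J := by
    intro x hx
    rw [mem_insert, mem_insert, mem_singleton] at hx
    rcases hx with rfl | rfl | rfl <;> assumption
  have hsum : ∀ f : Fin n → ℕ, ∑ i ∈ J, f i = ∑ i ∈ J \ {a, b, c}, f i + (f a + f b + f c) := by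
    intro f
    rw [← sum_sdiff hsub]
    congr 1
    rw [sum_insert (by simp [hab, hac]), sum_insert (by simp [hbc]), sum_singleton, add_assoc]
  rw [hsum, hsum m]
  have h3 : ∑ i ∈ J \ {a, b, c}, crm d m a b c s i = ∑ i ∈ J \ {a, b, c}, m i :=
    sum_congr rfl fun i hi => crm_out (by
      rw [mem_sdiff] at hi ⊢
      exact ⟨mem_univ i, hi.2⟩)
  rw [h3]
  have := h2 a (Or.inl rfl)
  have := h2 b (Or.inr (Or.inl rfl))
  have := h2 c (Or.inr (Or.inr rfl))
  omega

/-- One Cremona transformation. -/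
theorem Pos.step {D : ℕ} {J : Finset (Fin n)} {d : ℕ} {m : Fin n → ℕ} (h : Pos D J d m)
    {a b c : Fin n} (hab : a ≠ b) (hac : a ≠ c) (hbc : b ≠ c) (ha : a ∈ J) (hb : b ∈ J)
    (hc : c ∈ J) {s : ℕ} (hμ : m a + m b + m c + s = 2 * d) :
    Pos D J s (crm d m a b c s) := by
  have hma := h.two hbc hb hc
  have hmb := h.two hac ha hc
  have hmc := h.two hab ha hb
  -- the Cremona image of a class
  have key : ∀ (e : ℕ) (k : Fin n → ℕ), (∀ i, i ∉ J → k i = 0) → 1 ≤ generalDim 2 e k →
      ∃ s', k a + k b + k c + s' = 2 * e ∧ (∀ i, i ∉ J → crm e k a b c s' i = 0) ∧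
        generalDim 2 s' (crm e k a b c s') = generalDim 2 e k := by
    intro e k hk hdim
    obtain ⟨J3, h0, h1, h2, hJ3⟩ := emb3 hab hac hbc
    have hsum := sum_le_of_effective k hdim J3
    have hs3 : ∑ l, k (J3 l) = k a + k b + k c := by
      rw [Fin.sum_univ_three, h0, h1, h2]
    rw [hs3] at hsum
    refine ⟨2 * e - (k a + k b + k c), by omega, ?_, ?_⟩
    · intro i hi
      have : ¬ (i = a ∨ i = b ∨ i = c) := by
        rintro (rfl | rfl | rfl) <;> exact hi (by assumption)
      exact (if_neg this).trans (hk i hi)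
    · refine generalDim_cremona k _ J3 (fun l => le_of_effective k hdim _) (by rw [hs3]; omega)
        (fun l => ?_) (fun i hi => ?_)
      · refine if_pos ?_
        by_contra hcon
        exact (hJ3 (J3 l)).2 hcon l rfl
      · exact if_neg ((hJ3 i).1 hi)
  refine ⟨fun e k hk hdim => ?_, fun e k hk hdim => ?_, ?_⟩
  · obtain ⟨s', h1, h2, h3⟩ := key e k hk hdim
    have h4 := h.nef s' (crm e k a b c s') h2 (by rw [h3]; exact hdim)
    have h5 := pairing hab hac hbc hμ h1 hma hmb hmc
    have h6 : ((∑ i, m i * crm e k a b c s' i : ℕ) : ℤ) ≤ ((d * s' : ℕ) : ℤ) := by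
      exact_mod_cast h4
    push_cast at h6
    have h7 : ((∑ i, crm d m a b c s i * k i : ℕ) : ℤ) ≤ ((s * e : ℕ) : ℤ) := by
      push_cast
      linarith only [h4, h5]
    exact_mod_cast h7
  · obtain ⟨s', h1, h2, h3⟩ := key e k hk (by omega)
    have h4 := h.big s' (crm e k a b c s') h2 (by rw [h3]; exact hdim)
    have h5 := pairing hab hac hbc hμ h1 hma hmb hmc
    have h6 : ((∑ i, m i * crm e k a b c s' i + D : ℕ) : ℤ) ≤ ((d * s' : ℕ) : ℤ) := by
      exact_mod_cast h4
    push_cast at h6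
    have h7 : ((∑ i, crm d m a b c s i * k i + D : ℕ) : ℤ) ≤ ((s * e : ℕ) : ℤ) := by
      push_cast
      linarith only [h4, h5]
    exact_mod_cast h7
  · have h1 := sum_J_crm hab hac hbc hμ hma hmb hmc J ha hb hc
    have h2 := h.can
    omega

/-- Reduction to standard form. -/
theorem Pos.reduce {D : ℕ} {J : Finset (Fin n)} {M : ℕ} : ∀ (d : ℕ) (m : Fin n → ℕ),
    Pos D J d m → (∀ i, i ∉ J → m i ≤ M) →
    ∃ (d' : ℕ) (m' : Fin n → ℕ), Cremona 2 d m d' m' ∧ Pos D J d' m' ∧
      (∀ i, i ∉ J → m' i ≤ M) ∧ (∀ S ⊆ J, S.card ≤ 3 → ∑ i ∈ S, m' i ≤ d') ∧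
      virt d' m' = virt d m := by
  intro d
  induction d using Nat.strong_induction_on with
  | _ d ih =>
    intro m h hM
    by_cases hstd : ∀ S ⊆ J, S.card ≤ 3 → ∑ i ∈ S, m i ≤ d
    · exact ⟨d, m, Cremona.refl d m, h, hM, hstd, rfl⟩
    · push Not at hstd
      obtain ⟨S, hSJ, hS3, hlt⟩ := hstd
      have hcard : S.card = 3 := by
        by_contra hne
        have h012 : S.card = 0 ∨ S.card = 1 ∨ S.card = 2 := by omega
        rcases h012 with h0 | h1 | h2
        · rw [card_eq_zero] at h0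
          rw [h0, sum_empty] at hlt
          omega
        · obtain ⟨x, rfl⟩ := card_eq_one.1 h1
          rw [sum_singleton] at hlt
          have := h.one (hSJ (mem_singleton_self x))
          omega
        · obtain ⟨x, y, hxy, rfl⟩ := card_eq_two.1 h2
          rw [sum_pair hxy] at hlt
          have := h.two hxy (hSJ (by simp)) (hSJ (by simp))
          omega
      obtain ⟨a, b, c, hab, hac, hbc, rfl⟩ := card_eq_three.1 hcard
      have ha : a ∈ J := hSJ (by simp)
      have hb : b ∈ J := hSJ (by simp)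
      have hc : c ∈ J := hSJ (by simp)
      have hma := h.two hbc hb hc
      have hmb := h.two hac ha hc
      have hmc := h.two hab ha hb
      have hsum : ∑ i ∈ ({a, b, c} : Finset (Fin n)), m i = m a + m b + m c := by
        rw [sum_insert (by simp [hab, hac]), sum_insert (by simp [hbc]), sum_singleton,
          add_assoc]
      rw [hsum] at hlt
      set s := 2 * d - (m a + m b + m c) with hs
      have hμ : m a + m b + m c + s = 2 * d := by omega
      obtain ⟨d', m', h1, h2, h3, h4, h5⟩ := ih s (by omega) (crm d m a b c s)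
        (h.step hab hac hbc ha hb hc hμ) (fun i hi => by
          have : ¬ (i = a ∨ i = b ∨ i = c) := by
            rintro (rfl | rfl | rfl) <;> exact hi (by assumption)
          have h6 : crm d m a b c s i = m i := if_neg this
          rw [h6]
          exact hM i hi)
      refine ⟨d', m', ?_, h2, h3, h4, h5.trans (virt_crm hab hac hbc hμ hma hmb hmc)⟩
      obtain ⟨J3, e0, e1, e2, hJ3⟩ := emb3 hab hac hbc
      refine Cremona.step J3 (fun l => ?_) ?_ (fun l => ?_) (fun i hi => ?_) h1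
      · have h6 : ∀ x, (x = a ∨ x = b ∨ x = c) → m x ≤ d := by
          rintro x (rfl | rfl | rfl) <;> omega
        apply h6
        by_contra hcon
        exact (hJ3 (J3 l)).2 hcon l rfl
      · rw [Fin.sum_univ_three, e0, e1, e2]
        omega
      · refine if_pos ?_
        by_contra hcon
        exact (hJ3 (J3 l)).2 hcon l rfl
      · exact if_neg ((hJ3 i).1 hi)

/-- Nef classes with at most nine large multiplicities. -/
theorem nine_large : ∃ K E : ℕ, ∀ M, 1 ≤ M → ∀ (n d : ℕ) (m : Fin n → ℕ) (J : Finset (Fin n)),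
    J.card ≤ 9 → (∀ i, i ∉ J → m i ≤ M) → Pos (K * M ^ E) J d m →
    ForGeneralPoints 2 n fun p => ImposesMaximalConditions 2 d p m := by
  obtain ⟨K, E, H⟩ := many_largeR 2 3 le_rfl (by norm_num)
  refine ⟨K, E, fun M hM n d m J hJ hsmall hpos => ?_⟩
  obtain ⟨d', m', h1, h2, h3, h4, h5⟩ := hpos.reduce d m hsmall
  have h6 := H M hM n d' m' J (by norm_num; exact hJ) h3 (fun S hS hS3 => h4 S hS hS3)
    h2.deg (fun i hi => h2.one hi) (by
      have := h2.can
      norm_num
      exact this)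
  refine (cremona_final (by norm_num) h1 h6).mono fun p hp => ?_
  have h7 := hp.2
  by_contra hcon
  have h8 := (h7.1 hcon).2
  have h9 : virt d' m' = ((d' + 2).choose 2 : ℤ) - ∑ i, ((m' i + 2 - 1).choose 2 : ℤ) := rfl
  have h10 : virt d m = ((d + 2).choose 2 : ℤ) - ∑ i, ((m i + 2 - 1).choose 2 : ℤ) := rfl
  rw [← h9, ← h10, h5] at h8
  exact lt_irrefl _ h8

end Pool.Agent.H18.Nef
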